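import Pool.Agent.H29.T1.S2
import Pool.Agent.H24.HYP.LDA

/-!
# T1: LDAK, the classes of the twist at a prime where the twist is unramified
-/

set_option autoImplicit false
set_option linter.unusedSectionVars false

namespace Pool.T1

open Polynomial Matrix Pool.HYP Pool.TOW Pool.AVS IsDedekindDomain Pool.HYP.Lda24

namespace LdakAux

variable {R : Type} [CommRing R] [IsDedekindDomain R] {K : Type} [Field K] [Algebra R K]
  [IsFractionRing R K] {P : HeightOneSpectrum R} {ϖ : R} {L : Type} [Field L]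
  {O' : ValuationSubring L} {ι : K →+* L}

theorem ui_of (HC : CompP P ϖ L O' ι) {s : R} (hs : s ∉ P.asIdeal) :
    UI (O' : Set L) (ι (algebraMap R K s)) := by
  have hs0 : s ≠ 0 := by
    rintro rfl
    exact hs (Ideal.zero_mem _)
  have h0 : ι (algebraMap R K s) ≠ 0 :=
    (map_ne_zero ι).2 (fun h => hs0 (IsFractionRing.injective R K (by rw [h, map_zero])))
  refine ⟨h0, HC.int s, ?_⟩
  by_contra h
  exact hs ((HC.mem s).1 ((HC.loc.unif _ (HC.int s) h0).1 h))

theorem fk_scale (f : R[X]) (hf : f.Monic) (d : R) :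
    (fk K (f.scaleRoots d)).map ι = ((fk K f).map ι).scaleRoots (ι (algebraMap R K d)) := by
  have h1 : fk K (f.scaleRoots d) = (fk K f).scaleRoots (algebraMap R K d) := by
    refine map_scaleRoots f d _ ?_
    rw [hf.leadingCoeff, map_one]
    exact one_ne_zero
  rw [h1]
  refine map_scaleRoots _ _ _ ?_
  rw [(hf.map _).leadingCoeff, map_one]
  exact one_ne_zero

end LdakAux

open LdakAux

/-- **LDAK**. -/
theorem ldak (hE : EVNStmt) (hN : NMUStmt) (hI : INOKStmt) : LDAKStmt := by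
  intro R _ _ K _ _ _ P ϖ L _ O ι hC g f d α hf hfd hS hd hα hn hL
  obtain ⟨fO, h3, h4, h5, h6, -, -, h7, -⟩ := hI R K P ϖ L O ι hC f hf
  obtain ⟨u, w, s, hu, hc, hw, hs⟩ := hL
  have hU : UI (O : Set L) (ι (algebraMap R K d)) := ui_of hC hd
  rw [fk_scale f hf d, ← h5] at hc hw
  rw [← h5] at hs
  generalize ι (algebraMap R K d) = D at hU hc hw hs
  have hD0 : D ≠ 0 := hU.1
  have hdeg : (oL O fO).natDegree = 2 * g + 1 := by
    rw [h3.natDegree_map, h4, hfd]
  have hcm : IsCoprime (u.comp (C D * X)) (oL O fO) := by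
    obtain ⟨a, b, hab⟩ := hc
    refine ⟨a.comp (C D * X), b.comp (C D * X) * C (D ^ (2 * g + 1)), ?_⟩
    have := congrArg (fun p => p.comp (C D * X)) hab
    simp only [add_comp, mul_comp, one_comp, scale_comp, hdeg] at this
    rw [mul_assoc]
    exact this
  rw [← h7 α hα]
  refine hE L O (ι (algebraMap R K ϖ)) hC.loc ⟨ι (algebraMap R K ϖ), hC.loc.pi_mem⟩ fO
    (C ((D ^ u.natDegree)⁻¹) * u.comp (C D * X)) (C ((D ^ g)⁻¹) * w.comp (C D * X)) s (α.map ι)
    D ((-D) ^ u.natDegree) rfl h3 ⟨g, by rw [h4, hfd]⟩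
    (fun γ hγ hγi hin => hS (h6 _ rfl γ hγ hγi hin)) (monic_comp hu hD0) ?_ hU
    (ui_pow (ui_neg hU) _) ?_ ?_ ?_ ?_
  · refine IsCoprime.mul_left ?_ hcm
    refine ⟨C (D ^ u.natDegree), 0, ?_⟩
    rw [← C_mul, mul_inv_cancel₀ (pow_ne_zero _ hD0), C_1, zero_mul, add_zero]
  · obtain ⟨q, hq⟩ := hw
    refine ⟨C (D ^ u.natDegree * ((D ^ g)⁻¹) ^ 2) * q.comp (C D * X), ?_⟩
    have h8 := congrArg (fun p => p.comp (C D * X)) hq
    simp only [sub_comp, pow_comp, mul_comp, scale_comp, hdeg] at h8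
    have e1 : (C ((D ^ g)⁻¹) : L[X]) ^ 2 * C (D ^ (2 * g + 1)) = C D := by
      rw [← C_pow, ← C_mul]
      congr 1
      field_simp
      ring
    have e2 : (C ((D ^ u.natDegree)⁻¹) : L[X]) * C (D ^ u.natDegree * ((D ^ g)⁻¹) ^ 2) =
        C ((D ^ g)⁻¹) ^ 2 := by
      rw [← C_pow, ← C_mul]
      congr 1
      field_simp
    calc (C ((D ^ g)⁻¹) * w.comp (C D * X)) ^ 2 - C D * oL O fO
        = C ((D ^ g)⁻¹) ^ 2 * (w.comp (C D * X) ^ 2 - C (D ^ (2 * g + 1)) * oL O fO) := by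
          rw [← e1]
          ring
      _ = (C ((D ^ u.natDegree)⁻¹) * C (D ^ u.natDegree * ((D ^ g)⁻¹) ^ 2)) *
          (u.comp (C D * X) * q.comp (C D * X)) := by
          rw [h8, e2]
      _ = _ := by ring
  · have e3 : C ((-D) ^ u.natDegree) * (C ((D ^ u.natDegree)⁻¹) * u.comp (C D * X)) =
        Pool.HYP.kap (u.comp (C D * X)) := by
      unfold Pool.HYP.kap
      rw [nat_comp u hD0, ← mul_assoc, ← C_mul]
      congr 1
      rw [neg_pow, mul_assoc, mul_inv_cancel₀ (pow_ne_zero _ hD0), mul_one]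
      simp
    rw [e3]
    exact hs
  · rw [h5]
    exact hα.map (mapRingHom ι)
  · rw [h5]
    unfold NSq
    rw [hN.2.2.2 _ _ ι _ _ (hf.map _)]
    exact hn.map ι

end Pool.T1
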