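import Pool.Agent.H14.T1.S3
import Pool.Agent.H17.T1.MkB

/-!
# T1: OIN, the elements of `O` are integral over `Iinf F`
-/

set_option autoImplicit false

namespace Pool.T1

open Polynomial Matrix Module Pool.AVR Pool.AVS Pool.HYP

private theorem mem_Iinf_iff {F : Type} [Field F] (x : RatFunc F) : x ∈ Iinf F ↔ x ∈ MKI.VI F := by
  rw [MKI.mem_VI]
  exact Iff.rfl

private theorem int_mem {F : Type} [Field F] (x : RatFunc F) (hx : IsIntegral (MKI.VI F) x) :
    x ∈ Iinf F := by
  rw [mem_Iinf_iff]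
  obtain ⟨y, hy⟩ := (IsIntegrallyClosedIn.isIntegral_iff (R := MKI.VI F) (A := RatFunc F)).mp hx
  rw [← hy]
  exact y.2

theorem oin : OINStmt := by
  intro F _ _ K _ _ _ _ O hO
  let := MKI.algI F K
  have : IsScalarTower (MKI.VI F) (RatFunc F) K := IsScalarTower.of_algebraMap_eq fun x => rfl
  refine ⟨fun x => ⟨fun hx => ?_, fun hx => ?_⟩, fun a ha => ?_, fun a => ?_⟩
  · have h1 : IsIntegral (MKI.VI F) (algebraMap (RatFunc F) K x) := (MKI.mem_O_iff O hO _).mp hx
    exact int_mem x ((isIntegral_algebraMap_iff (algebraMap (RatFunc F) K).injective).mp h1)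
  · exact MKI.inf_le O hO.1 x hx
  · have h1 : IsIntegral (MKI.VI F) a := (MKI.mem_O_iff O hO _).mp ha
    exact int_mem _ (Algebra.isIntegral_trace h1)
  · obtain ⟨ω, hω⟩ := MKI.basisO (F := F) O hO
    obtain ⟨n, hn⟩ : ∃ n : ℕ, ∀ i, (ω.repr a i).intDegree ≤ n := by
      refine ⟨∑ i, (ω.repr a i).intDegree.toNat, fun i => ?_⟩
      have h1 : (ω.repr a i).intDegree ≤ (ω.repr a i).intDegree.toNat := Int.self_le_toNat _
      have h2 : (ω.repr a i).intDegree.toNat ≤ ∑ i, (ω.repr a i).intDegree.toNat :=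
        Finset.single_le_sum (f := fun i => (ω.repr a i).intDegree.toNat)
          (fun _ _ => Nat.zero_le _) (Finset.mem_univ i)
      exact_mod_cast h1.trans (by exact_mod_cast h2)
    have hX : (RatFunc.X : RatFunc F) ≠ 0 := RatFunc.X_ne_zero
    refine ⟨(RatFunc.X ^ n)⁻¹, inv_ne_zero (pow_ne_zero _ hX), ?_⟩
    rw [hω]
    intro i
    rw [← Algebra.smul_def, map_smul, Finsupp.smul_apply, smul_eq_mul]
    by_cases h0 : ω.repr a i = 0
    · rw [h0, mul_zero]
      exact Subring.zero_mem _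
    · rw [BIRN2.mem_OInf, RatFunc.intDegree_mul (inv_ne_zero (pow_ne_zero _ hX)) h0,
        RatFunc.intDegree_inv, BIRN2.intDegree_X_pow]
      have := hn i
      omega

end Pool.T1
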